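import Pool.Agent.W662.SK.Basic
import Pool.Agent.W662.SK.StmtsA

set_option autoImplicit false

open scoped InnerProductSpace ENNReal

namespace Pool.Agent.W382.SK

open Pool.Agent.W662.SK

theorem lt_ne_one (p : Fin 3 × Bool) : lt p ≠ 1 := by
  intro h
  have := congrArg FreeGroup.toWord h
  simp [lt, FreeGroup.toWord_mk] at this

theorem isRot (h1 : S_A1) {t : ℝ} (h0 : 0 ≤ t) (h1' : t ≤ 1) {s : G3} (hs : s ≠ 1) :
    IsRot t s (Rot t s) := by
  have h := h1 t s h0 h1' hs
  unfold Rot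
  rw [dif_pos h]
  exact h.choose_spec

/-- delta function, as a plain function -/
def D (x y : G3) : ℂ := if y = x then 1 else 0

theorem dl_D (x y : G3) : dl x y = D x y := by
  unfold D
  by_cases h : y = x
  · rw [if_pos h, h]
    exact dl_apply_self x
  · rw [if_neg h]
    exact dl_apply_ne h

theorem rp_dl (h1 : S_A1) (h2 : S_A2) {t : ℝ} (h0 : 0 ≤ t) (h1' : t ≤ 1) (p : Fin 3 × Bool)
    (x y : G3) : rp t (lt p) (dl x) y =
      if y = 1 then (cs t : ℂ) * D (lt p * x) 1 + (t : ℂ) * D (lt p * x) (lt p)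
      else if y = lt p then (cs t : ℂ) * D (lt p * x) (lt p) - (t : ℂ) * D (lt p * x) 1
      else D (lt p * x) y := by
  rw [h2 t h0 h1' p]
  change Rot t (lt p) (Lam ℂ (lt p) (dl x)) y = _
  rw [Lam_dl]
  have h := isRot h1 h0 h1' (lt_ne_one p) (dl (lt p * x)) y
  rw [h]
  have e : (fun z => dl (lt p * x) z) = D (lt p * x) := funext fun z => dl_D _ _
  rw [e]
  rfl

theorem a3 (h1 : S_A1) (h2 : S_A2) : S_A3 := by
  intro t h0 ht p
  have hs := lt_ne_one p
  refine ⟨?_, ?_, ?_⟩
  · refine l2_ext fun y => ?_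
    rw [rp_dl h1 h2 h0 ht, mul_one, l2_add_apply, l2_smul_apply, l2_smul_apply, dl_D, dl_D]
    unfold D
    by_cases hy : y = 1
    · simp [hy, hs, hs.symm]
    · by_cases hy2 : y = lt p
      · simp [hy2, hs, hs.symm]
      · simp [hy, hy2]
  · refine l2_ext fun y => ?_
    rw [rp_dl h1 h2 h0 ht, mul_inv_cancel, l2_sub_apply, l2_smul_apply, l2_smul_apply, dl_D, dl_D]
    unfold D
    by_cases hy : y = 1
    · simp [hy, hs, hs.symm]
    · by_cases hy2 : y = lt p
      · simp [hy2, hs, hs.symm]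
      · simp [hy, hy2]
  · intro x hx1 hx2
    refine l2_ext fun y => ?_
    rw [rp_dl h1 h2 h0 ht, dl_D]
    have e1 : (1 : G3) ≠ lt p * x := fun h => hx2 (eq_inv_of_mul_eq_one_right h.symm)
    have e2 : lt p ≠ lt p * x := fun h => hx1 (by simpa using h)
    unfold D
    by_cases hy : y = 1
    · rw [if_pos hy, if_neg e1, if_neg e2, hy, if_neg e1]
      simp
    · rw [if_neg hy]
      by_cases hy2 : y = lt p
      · rw [if_pos hy2, if_neg e2, if_neg e1, hy2, if_neg e2]
        simp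
      · rw [if_neg hy2]

end Pool.Agent.W382.SK
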